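import Pool.Agent.H.MP_53fdf7_co.F

namespace Pool.Agent.Results.MP_53fdf7_co.All

open Pool.Agent.H.MP_53fdf7_co

theorem result (k n : ℕ) (hk : 1 ≤ k) (hn : 3 ≤ n) :
    ∃ (P : Type) (_ : PartialOrder P) (rk : P → ℤ), Poly P n rk ∧ Orbits P k ∧ NoDigon P rk := by
  induction n, hn using Nat.le_induction with
  | base => exact base k hk
  | succ n _ ih =>
    obtain ⟨P, _, r, h1, h2, h3⟩ := ih
    exact step h1 h2 h3

end Pool.Agent.Results.MP_53fdf7_co.All
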